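import Pool.Agent.Helper87.TY.SmallR
import Pool.Agent.Helper87.TY.Defs

/-!
TY (MP_464c42_nt). Two lemmas for the assembly `apY`: the alternative (b1) / (b2) for a pair, and the choice of `m`.
(helper93)
-/

set_option autoImplicit false
open Pool.Agent.Helper87.Camp Pool.Agent.Helper10 Pool.Agent.Helper91.CPX
namespace Pool.Agent.Helper87.TY
open Pool.Agent.Helper24.TU Pool.Agent.Helper24.TV Pool.Agent.Helper87.RP Pool.Agent.Helper97.TX

/-- Either `(u, v)` has the property of (b2) or the data of (b1). -/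
theorem nsr_or (L d : ℕ) (Lm : ℤ) (hLm : 0 ≤ Lm) (u v : ℤ) (hu : u ≠ 0)
    (hp : ∀ p ∈ d.primeFactors, ¬ (p : ℤ) ^ L ∣ u ∨ ¬ (p : ℤ) ^ L ∣ v) :
    NSR Lm u v ∨ ∃ g x y : ℤ, (∀ p ∈ d.primeFactors, ¬ (p : ℤ) ^ L ∣ g) ∧
      u = g * x ∧ v = g * y ∧ |x + y| ≤ Lm := by
  have hg0 : (Int.gcd u v : ℤ) ≠ 0 := by
    intro h
    exact hu (Int.gcd_eq_zero_iff.1 (by exact_mod_cast h)).1
  obtain ⟨x, hx⟩ := Int.gcd_dvd_left u v
  obtain ⟨y, hy⟩ := Int.gcd_dvd_right u v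
  obtain ⟨g, hg⟩ : ∃ g : ℤ, g = Int.gcd u v := ⟨_, rfl⟩
  rw [← hg] at hx hy hg0
  have hc : IsCoprime x y := by
    have h1 : g * (u.gcdA v * x + u.gcdB v * y) = g * 1 := by
      have h2 := Int.gcd_eq_gcd_ab u v
      rw [← hg] at h2
      calc g * (u.gcdA v * x + u.gcdB v * y) =
            (g * x) * u.gcdA v + (g * y) * u.gcdB v := by ring
        _ = u * u.gcdA v + v * u.gcdB v := by rw [← hx, ← hy]
        _ = g * 1 := by rw [mul_one]; exact h2.symm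
    exact ⟨u.gcdA v, u.gcdB v, mul_left_cancel₀ hg0 h1⟩
  by_cases h : NoSmallRatio y (y + x) Lm
  · exact Or.inl ⟨g, x, y, hx, hy, hc, h⟩
  · refine Or.inr ⟨g, x, y, ?_, hx, hy, sr_small x y Lm hLm hc h⟩
    intro p hpp hpg
    rcases hp p hpp with h1 | h1
    · exact h1 (hx ▸ hpg.mul_right x)
    · exact h1 (hy ▸ hpg.mul_right y)

/-- An index `m` outside `z, h, t` such that `m` or `t` is in `U`, where `U` has an element other than `z`, `h`. -/
theorem pick_m {n : ℕ} (hn : 2 ≤ n) (U : Finset (Fin (n + 2))) (z h t : Fin (n + 2))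
    (hU : 2 ≤ U.card) (hh : h ∉ U) :
    ∃ m : Fin (n + 2), m ≠ z ∧ m ≠ h ∧ m ≠ t ∧ (m ∈ U ∨ t ∈ U) := by
  classical
  obtain ⟨i, hi, j, hj, hij⟩ := Finset.one_lt_card.1 (show 1 < U.card by omega)
  obtain ⟨k, hk, hkz⟩ : ∃ k ∈ U, k ≠ z := by
    by_cases h1 : i = z
    · exact ⟨j, hj, by rw [← h1]; exact hij.symm⟩
    · exact ⟨i, hi, h1⟩
  have hkh : k ≠ h := fun e => hh (e ▸ hk)
  by_cases hkt : k = t
  · obtain ⟨m, hm⟩ : ∃ m : Fin (n + 2), m ∉ ({z, h, t} : Finset (Fin (n + 2))) := by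
      by_contra hne
      push Not at hne
      have h2 := Finset.card_le_card (show Finset.univ ⊆ ({z, h, t} : Finset (Fin (n + 2))) from
        fun m _ => hne m)
      have h3 := Finset.card_le_three (a := z) (b := h) (c := t)
      rw [Finset.card_univ, Fintype.card_fin] at h2
      omega
    rw [Finset.mem_insert, Finset.mem_insert, Finset.mem_singleton, not_or, not_or] at hm
    exact ⟨m, hm.1, hm.2.1, hm.2.2, Or.inr (hkt ▸ hk)⟩
  · exact ⟨k, hkz, hkh, hkt, Or.inl hk⟩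

end Pool.Agent.Helper87.TY
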