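import Pool.Agent.Helper87.TY.Defs

/-!
TY (MP_464c42_nt). The products in the assembly `apY`: `Q` bounds all products without `Y t`, `Y c`, `c ≠ z, t`.
(helper93)
-/

set_option autoImplicit false

open Pool.Agent.Helper87.Camp Pool.Agent.Helper10 Pool.Agent.Helper91.CPX

namespace Pool.Agent.Helper87.TY

open Pool.Agent.Helper24.TU Pool.Agent.Helper24.TV Pool.Agent.Helper87.RP Pool.Agent.Helper97.TX

/-- `1 ≤ Q`. -/
theorem one_le_Q {n : ℕ} (hn : 2 ≤ n) (Y : Fin (n + 2) → ℕ) (hY : ∀ i, 1 ≤ Y i)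
    (z t : Fin (n + 2)) (Q : ℝ)
    (hQ : ∀ c : Fin (n + 2), c ≠ z → c ≠ t →
      (∏ h ∈ (Finset.univ.erase t).erase c, (Y h : ℝ)) ≤ Q) : 1 ≤ Q := by
  classical
  obtain ⟨c, hc⟩ : ∃ c : Fin (n + 2), c ∉ ({z, t} : Finset (Fin (n + 2))) := by
    by_contra hne
    push Not at hne
    have h2 := Finset.card_le_card (show Finset.univ ⊆ ({z, t} : Finset (Fin (n + 2))) from
      fun m _ => hne m)
    have h3 := Finset.card_le_two (a := z) (b := t)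
    rw [Finset.card_univ, Fintype.card_fin] at h2
    omega
  rw [Finset.mem_insert, Finset.mem_singleton, not_or] at hc
  refine le_trans ?_ (hQ c hc.1 hc.2)
  have h3 : 1 ≤ ∏ h ∈ (Finset.univ.erase t).erase c, Y h := Finset.one_le_prod' fun h _ => hY h
  exact_mod_cast h3

/-- (A) and the pair `(h, t)`, in the other order. -/
theorem prodPair {n : ℕ} (Y : Fin (n + 2) → ℕ) (z t : Fin (n + 2)) (Q : ℝ)
    (hQ : ∀ c : Fin (n + 2), c ≠ z → c ≠ t →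
      (∏ h ∈ (Finset.univ.erase t).erase c, (Y h : ℝ)) ≤ Q)
    (h : Fin (n + 2)) (hz : h ≠ z) (ht : h ≠ t) :
    (∏ k ∈ (Finset.univ.erase h).erase t, (Y k : ℝ)) ≤ Q := by
  rw [Finset.erase_right_comm]
  exact hQ h hz ht

/-- (B1). -/
theorem prodB1 {n : ℕ} (Y : Fin (n + 2) → ℕ) (z t : Fin (n + 2)) (Q : ℝ) (hQ0 : 0 ≤ Q)
    (hQ : ∀ c : Fin (n + 2), c ≠ z → c ≠ t →
      (∏ h ∈ (Finset.univ.erase t).erase c, (Y h : ℝ)) ≤ Q)
    (j l : Fin (n + 2)) (hjz : j ≠ z) (hlz : l ≠ z) (htj : t ≠ j) (htl : t ≠ l) (hjl : j ≠ l) :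
    (∏ h ∈ ((Finset.univ.erase t).erase j).erase l, (Y h : ℝ)) *
      Real.sqrt ((Y j : ℝ) * Y l) ≤ Q := by
  obtain ⟨P, hP⟩ : ∃ P : ℝ, P = ∏ h ∈ ((Finset.univ.erase t).erase j).erase l, (Y h : ℝ) :=
    ⟨_, rfl⟩
  have hP0 : 0 ≤ P := by rw [hP]; exact Finset.prod_nonneg fun i _ => Nat.cast_nonneg _
  have hl : l ∈ (Finset.univ.erase t).erase j :=
    Finset.mem_erase.2 ⟨hjl.symm, Finset.mem_erase.2 ⟨htl.symm, Finset.mem_univ _⟩⟩
  have hj : j ∈ (Finset.univ.erase t).erase l :=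
    Finset.mem_erase.2 ⟨hjl, Finset.mem_erase.2 ⟨htj.symm, Finset.mem_univ _⟩⟩
  have h1 : (Y l : ℝ) * P ≤ Q := by
    rw [hP]
    exact (le_of_eq (Finset.mul_prod_erase _ (fun h => (Y h : ℝ)) hl)).trans (hQ j hjz htj.symm)
  have h2 : (Y j : ℝ) * P ≤ Q := by
    rw [hP, Finset.erase_right_comm]
    exact (le_of_eq (Finset.mul_prod_erase _ (fun h => (Y h : ℝ)) hj)).trans (hQ l hlz htl.symm)
  have hj0 : (0 : ℝ) ≤ Y j := Nat.cast_nonneg _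
  have hl0 : (0 : ℝ) ≤ Y l := Nat.cast_nonneg _
  rw [← hP]
  apply le_of_sq_le_sq _ hQ0
  calc (P * Real.sqrt ((Y j : ℝ) * Y l)) ^ 2 = ((Y l : ℝ) * P) * ((Y j : ℝ) * P) := by
        rw [mul_pow, Real.sq_sqrt (mul_nonneg hj0 hl0)]
        ring
    _ ≤ Q * Q := mul_le_mul h1 h2 (mul_nonneg hj0 hP0) hQ0
    _ = Q ^ 2 := by ring

/-- (b2). -/
theorem prodFour {n : ℕ} (Y : Fin (n + 2) → ℕ) (hY : ∀ i, 1 ≤ Y i) (z t : Fin (n + 2)) (Q : ℝ)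
    (hQ0 : 0 ≤ Q)
    (hQ : ∀ c : Fin (n + 2), c ≠ z → c ≠ t →
      (∏ h ∈ (Finset.univ.erase t).erase c, (Y h : ℝ)) ≤ Q)
    (h m : Fin (n + 2)) (hzh : z ≠ h) (hzm : z ≠ m) (hzt : z ≠ t) (hhm : h ≠ m) (hht : h ≠ t)
    (hmt : m ≠ t) :
    ((∏ k ∈ (((Finset.univ.erase z).erase h).erase m).erase t, (Y k : ℝ)) *
      Real.sqrt ((Y z : ℝ) * Y h)) * Real.sqrt (Y m : ℝ) ≤ Q := by
  obtain ⟨P, hP⟩ : ∃ P : ℝ, P = ∏ k ∈ (((Finset.univ.erase z).erase h).erase m).erase t,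
    (Y k : ℝ) := ⟨_, rfl⟩
  have hP0 : 0 ≤ P := by rw [hP]; exact Finset.prod_nonneg fun i _ => Nat.cast_nonneg _
  have e1 : (((Finset.univ.erase z).erase h).erase m).erase t =
      (((Finset.univ.erase t).erase h).erase z).erase m := by
    ext i
    simp only [Finset.mem_erase, Finset.mem_univ]
    tauto
  have e2 : (((Finset.univ.erase z).erase h).erase m).erase t =
      (((Finset.univ.erase t).erase m).erase z).erase h := by
    ext i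
    simp only [Finset.mem_erase, Finset.mem_univ]
    tauto
  have m1 : z ∈ (Finset.univ.erase t).erase h :=
    Finset.mem_erase.2 ⟨hzh, Finset.mem_erase.2 ⟨hzt, Finset.mem_univ _⟩⟩
  have m2 : m ∈ ((Finset.univ.erase t).erase h).erase z :=
    Finset.mem_erase.2 ⟨hzm.symm, Finset.mem_erase.2 ⟨hhm.symm, Finset.mem_erase.2 ⟨hmt,
      Finset.mem_univ _⟩⟩⟩
  have m3 : z ∈ (Finset.univ.erase t).erase m :=
    Finset.mem_erase.2 ⟨hzm, Finset.mem_erase.2 ⟨hzt, Finset.mem_univ _⟩⟩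
  have m4 : h ∈ ((Finset.univ.erase t).erase m).erase z :=
    Finset.mem_erase.2 ⟨hzh.symm, Finset.mem_erase.2 ⟨hhm, Finset.mem_erase.2 ⟨hht,
      Finset.mem_univ _⟩⟩⟩
  have h1 : (Y z : ℝ) * ((Y m : ℝ) * P) ≤ Q := by
    refine le_trans (le_of_eq ?_) (hQ h hzh.symm hht)
    rw [← Finset.mul_prod_erase _ (fun k => (Y k : ℝ)) m1,
      ← Finset.mul_prod_erase _ (fun k => (Y k : ℝ)) m2, ← e1, ← hP]
  have h2 : (Y z : ℝ) * ((Y h : ℝ) * P) ≤ Q := by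
    refine le_trans (le_of_eq ?_) (hQ m hzm.symm hmt)
    rw [← Finset.mul_prod_erase _ (fun k => (Y k : ℝ)) m3,
      ← Finset.mul_prod_erase _ (fun k => (Y k : ℝ)) m4, ← e2, ← hP]
  have hz0 : (1 : ℝ) ≤ Y z := by exact_mod_cast hY z
  have hh0 : (0 : ℝ) ≤ Y h := Nat.cast_nonneg _
  have hm0 : (0 : ℝ) ≤ Y m := Nat.cast_nonneg _
  rw [← hP]
  apply le_of_sq_le_sq _ hQ0
  calc (P * Real.sqrt ((Y z : ℝ) * Y h) * Real.sqrt (Y m : ℝ)) ^ 2 =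
        (Y z : ℝ) * (((Y h : ℝ) * P) * ((Y m : ℝ) * P)) := by
        rw [mul_pow, mul_pow, Real.sq_sqrt (by positivity), Real.sq_sqrt hm0]
        ring
    _ ≤ (Y z : ℝ) * ((Y z : ℝ) * (((Y h : ℝ) * P) * ((Y m : ℝ) * P))) := by
        have h3 : 0 ≤ (Y z : ℝ) * (((Y h : ℝ) * P) * ((Y m : ℝ) * P)) := by positivity
        nlinarith
    _ = ((Y z : ℝ) * ((Y m : ℝ) * P)) * ((Y z : ℝ) * ((Y h : ℝ) * P)) := by ring
    _ ≤ Q * Q := mul_le_mul h1 h2 (by positivity) hQ0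
    _ = Q ^ 2 := by ring

end Pool.Agent.Helper87.TY
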